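import Pool.Agent.helper62.VN.SpecG

/-!
# Row vne:GO2 (MP_07c750): calculus of first order Taylor expansions
-/

set_option autoImplicit false

open scoped MatrixGroups ContDiff Topology UpperHalfPlane
open UpperHalfPlane MeasureTheory Filter Set

namespace Pool.Agent.VNE

open Pool.Agent.RS Pool.Agent.VQE

/-- Lipschitz bounds -/
theorem GO2_lip (A r : ℝ) (hA : 1 ≤ A) (φ : ℝ → ℝ → ℝ) (φ0 α β : ℝ) (h : TL A r φ φ0 α β) (b c b' c' : ℝ)
    (hb : |b| ≤ r) (hc : |c| ≤ r) (hb' : |b'| ≤ r) (hc' : |c'| ≤ r) (hS : |b| + |c| + |b'| + |c'| ≤ 1) :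
    |φ b c - φ b' c'| ≤ 2 * A * (|b - b'| + |c - c'|) := by
  have h1 := h.tl b c b' c' hb hc hb' hc'
  obtain ⟨-, hα, hβ⟩ := h.bd
  have h2 : |α * (b - b') + β * (c - c')| ≤ A * (|b - b'| + |c - c'|) := by
    refine (abs_add_le _ _).trans ?_
    rw [abs_mul, abs_mul, mul_add]
    exact add_le_add (mul_le_mul_of_nonneg_right hα (abs_nonneg _)) (mul_le_mul_of_nonneg_right hβ (abs_nonneg _))
  have h3 : A * (|b| + |c| + |b'| + |c'|) * (|b - b'| + |c - c'|) ≤ A * 1 * (|b - b'| + |c - c'|) := by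
    gcongr
  have h4 : φ b c - φ b' c' = (φ b c - φ b' c' - α * (b - b') - β * (c - c')) + (α * (b - b') + β * (c - c')) := by ring
  rw [h4]
  refine (abs_add_le _ _).trans ?_
  linarith

/-- values near `φ0` -/
theorem GO2_val (A r : ℝ) (hA : 1 ≤ A) (hr : 0 < r) (φ : ℝ → ℝ → ℝ) (φ0 α β : ℝ) (h : TL A r φ φ0 α β) (b c : ℝ)
    (hb : |b| ≤ r) (hc : |c| ≤ r) (hS : |b| + |c| ≤ 1) :
    |φ b c - φ0| ≤ 2 * A * (|b| + |c|) := by
  have h1 := GO2_lip A r hA φ φ0 α β h b c 0 0 hb hc (by rw [abs_zero]; exact hr.le) (by rw [abs_zero]; exact hr.le)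
    (by rw [abs_zero]; linarith)
  rwa [h.v0, sub_zero, sub_zero] at h1

theorem GO2_mono (A r A' r' : ℝ) (hA : A ≤ A') (hr : r' ≤ r) (φ : ℝ → ℝ → ℝ) (φ0 α β : ℝ) (h : TL A r φ φ0 α β) :
    TL A' r' φ φ0 α β := by
  refine ⟨h.v0, ⟨h.bd.1.trans hA, h.bd.2.1.trans hA, h.bd.2.2.trans hA⟩, fun b c b' c' hb hc hb' hc' => ?_⟩
  refine (h.tl b c b' c' (hb.trans hr) (hc.trans hr) (hb'.trans hr) (hc'.trans hr)).trans ?_
  gcongr

theorem GO2_add (A r : ℝ) (φ ψ : ℝ → ℝ → ℝ) (φ0 α β ψ0 α' β' : ℝ) (h : TL A r φ φ0 α β) (h' : TL A r ψ ψ0 α' β') :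
    TL (2 * A) r (fun b c => φ b c + ψ b c) (φ0 + ψ0) (α + α') (β + β') := by
  obtain ⟨a1, a2, a3⟩ := h.bd
  obtain ⟨b1, b2, b3⟩ := h'.bd
  refine ⟨by simp only [h.v0, h'.v0], ⟨?_, ?_, ?_⟩, fun b c b' c' hb hc hb' hc' => ?_⟩
  · exact (abs_add_le _ _).trans (by linarith)
  · exact (abs_add_le _ _).trans (by linarith)
  · exact (abs_add_le _ _).trans (by linarith)
  · have h1 := h.tl b c b' c' hb hc hb' hc'
    have h2 := h'.tl b c b' c' hb hc hb' hc'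
    have h3 : φ b c + ψ b c - (φ b' c' + ψ b' c') - (α + α') * (b - b') - (β + β') * (c - c') =
        (φ b c - φ b' c' - α * (b - b') - β * (c - c')) + (ψ b c - ψ b' c' - α' * (b - b') - β' * (c - c')) := by ring
    rw [h3]
    refine (abs_add_le _ _).trans ?_
    linarith

theorem GO2_neg (A r : ℝ) (φ : ℝ → ℝ → ℝ) (φ0 α β : ℝ) (h : TL A r φ φ0 α β) :
    TL A r (fun b c => -φ b c) (-φ0) (-α) (-β) := by
  obtain ⟨a1, a2, a3⟩ := h.bd
  refine ⟨by simp only [h.v0], ⟨by rwa [abs_neg], by rwa [abs_neg], by rwa [abs_neg]⟩, fun b c b' c' hb hc hb' hc' => ?_⟩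
  have h1 := h.tl b c b' c' hb hc hb' hc'
  have h3 : -φ b c - -φ b' c' - -α * (b - b') - -β * (c - c') = -(φ b c - φ b' c' - α * (b - b') - β * (c - c')) := by ring
  rw [h3, abs_neg]
  exact h1

theorem GO2_sub (A r : ℝ) (φ ψ : ℝ → ℝ → ℝ) (φ0 α β ψ0 α' β' : ℝ) (h : TL A r φ φ0 α β) (h' : TL A r ψ ψ0 α' β') :
    TL (2 * A) r (fun b c => φ b c - ψ b c) (φ0 - ψ0) (α - α') (β - β') := by
  have h1 := GO2_add A r _ _ _ _ _ _ _ _ h (GO2_neg A r _ _ _ _ h')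
  simp only [← sub_eq_add_neg] at h1
  exact h1

theorem GO2_mul (A r : ℝ) (hA : 1 ≤ A) (hr : 0 < r) (hr4 : r ≤ 1 / 4) (φ ψ : ℝ → ℝ → ℝ) (φ0 α β ψ0 α' β' : ℝ)
    (h : TL A r φ φ0 α β) (h' : TL A r ψ ψ0 α' β') :
    TL (10 * A ^ 2) r (fun b c => φ b c * ψ b c) (φ0 * ψ0) (φ0 * α' + ψ0 * α) (φ0 * β' + ψ0 * β) := by
  obtain ⟨a1, a2, a3⟩ := h.bd
  obtain ⟨b1, b2, b3⟩ := h'.bd
  have hA0 : 0 ≤ A := by linarith
  have hm : ∀ x y : ℝ, |x| ≤ A → |y| ≤ A → |x * y| ≤ A ^ 2 := fun x y hx hy => by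
    rw [abs_mul, sq]
    exact mul_le_mul hx hy (abs_nonneg _) hA0
  refine ⟨by simp only [h.v0, h'.v0], ⟨?_, ?_, ?_⟩, fun b c b' c' hb hc hb' hc' => ?_⟩
  · exact (hm _ _ a1 b1).trans (by nlinarith)
  · refine (abs_add_le _ _).trans ?_
    have := hm _ _ a1 b2
    have := hm _ _ b1 a2
    nlinarith
  · refine (abs_add_le _ _).trans ?_
    have := hm _ _ a1 b3
    have := hm _ _ b1 a3
    nlinarith
  · have hS : |b| + |c| + |b'| + |c'| ≤ 1 := by linarith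
    have e1 := GO2_lip A r hA φ φ0 α β h b c b' c' hb hc hb' hc' hS
    have e2 := GO2_lip A r hA ψ ψ0 α' β' h' b c b' c' hb hc hb' hc' hS
    have e3 := GO2_val A r hA hr ψ ψ0 α' β' h' b c hb hc (by linarith [abs_nonneg b', abs_nonneg c'])
    have e4 := GO2_val A r hA hr φ φ0 α β h b' c' hb' hc' (by linarith [abs_nonneg b, abs_nonneg c])
    have e5 := h.tl b c b' c' hb hc hb' hc'
    have e6 := h'.tl b c b' c' hb hc hb' hc'
    have hb0 := abs_nonneg b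
    have hc0 := abs_nonneg c
    have hb0' := abs_nonneg b'
    have hc0' := abs_nonneg c'
    have hδ0 : 0 ≤ |b - b'| + |c - c'| := by positivity
    have e3' : |ψ b c - ψ0| ≤ 2 * A * (|b| + |c| + |b'| + |c'|) := e3.trans (mul_le_mul_of_nonneg_left (by linarith) (by positivity))
    have e4' : |φ b' c' - φ0| ≤ 2 * A * (|b| + |c| + |b'| + |c'|) := e4.trans (mul_le_mul_of_nonneg_left (by linarith) (by positivity))
    have hid : φ b c * ψ b c - φ b' c' * ψ b' c' - (φ0 * α' + ψ0 * α) * (b - b') - (φ0 * β' + ψ0 * β) * (c - c') =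
        (φ b c - φ b' c') * (ψ b c - ψ0) + ψ0 * (φ b c - φ b' c' - α * (b - b') - β * (c - c')) +
        (φ b' c' - φ0) * (ψ b c - ψ b' c') + φ0 * (ψ b c - ψ b' c' - α' * (b - b') - β' * (c - c')) := by ring
    rw [hid]
    generalize |b| + |c| + |b'| + |c'| = S at *
    generalize |b - b'| + |c - c'| = δ at *
    have hS0 : 0 ≤ S := by
      by_contra hneg
      have : 2 * A * S < 0 := by nlinarith
      linarith [abs_nonneg (ψ b c - ψ0)]
    have f1 : |(φ b c - φ b' c') * (ψ b c - ψ0)| ≤ 2 * A * δ * (2 * A * S) := by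
      rw [abs_mul]
      exact mul_le_mul e1 e3' (abs_nonneg _) (by positivity)
    have f2 : |ψ0 * (φ b c - φ b' c' - α * (b - b') - β * (c - c'))| ≤ A * (A * S * δ) := by
      rw [abs_mul]
      exact mul_le_mul b1 e5 (abs_nonneg _) hA0
    have f3 : |(φ b' c' - φ0) * (ψ b c - ψ b' c')| ≤ 2 * A * S * (2 * A * δ) := by
      rw [abs_mul]
      exact mul_le_mul e4' e2 (abs_nonneg _) (by positivity)
    have f4 : |φ0 * (ψ b c - ψ b' c' - α' * (b - b') - β' * (c - c'))| ≤ A * (A * S * δ) := by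
      rw [abs_mul]
      exact mul_le_mul a1 e6 (abs_nonneg _) hA0
    have g1 := abs_add_le ((φ b c - φ b' c') * (ψ b c - ψ0) + ψ0 * (φ b c - φ b' c' - α * (b - b') - β * (c - c')) +
        (φ b' c' - φ0) * (ψ b c - ψ b' c')) (φ0 * (ψ b c - ψ b' c' - α' * (b - b') - β' * (c - c')))
    have g2 := abs_add_le ((φ b c - φ b' c') * (ψ b c - ψ0) + ψ0 * (φ b c - φ b' c' - α * (b - b') - β * (c - c')))
        ((φ b' c' - φ0) * (ψ b c - ψ b' c'))
    have g3 := abs_add_le ((φ b c - φ b' c') * (ψ b c - ψ0)) (ψ0 * (φ b c - φ b' c' - α * (b - b') - β * (c - c')))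
    have g4 : 2 * A * δ * (2 * A * S) + A * (A * S * δ) + 2 * A * S * (2 * A * δ) + A * (A * S * δ) = 10 * A ^ 2 * S * δ := by ring
    linarith

theorem GO2_inv (A r : ℝ) (hA : 1 ≤ A) (hr : 0 < r) (hr8 : r ≤ 1 / (8 * A ^ 2)) (φ : ℝ → ℝ → ℝ) (φ0 α β : ℝ)
    (h : TL A r φ φ0 α β) (h0 : 1 / A ≤ |φ0|) :
    TL (36 * A ^ 7) r (fun b c => (φ b c)⁻¹) φ0⁻¹ (-(α / φ0 ^ 2)) (-(β / φ0 ^ 2)) := by
  obtain ⟨a1, a2, a3⟩ := h.bd
  have hA0 : 0 < A := by linarith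
  have hAp : ∀ n : ℕ, 1 ≤ A ^ n := fun n => one_le_pow₀ hA
  have hr4 : r ≤ 1 / 8 := hr8.trans (one_div_le_one_div_of_le (by norm_num) (by nlinarith [hAp 2]))
  have h0p : 0 < |φ0| := lt_of_lt_of_le (by positivity) h0
  have hφ0 : φ0 ≠ 0 := abs_pos.1 h0p
  have hinv : |φ0⁻¹| ≤ A := by
    rw [abs_inv]
    have h1 := inv_anti₀ (by positivity : 0 < 1 / A) h0
    rwa [one_div, inv_inv] at h1
  have hinv2 : |(φ0 ^ 2)⁻¹| ≤ A ^ 2 := by
    rw [← inv_pow, abs_pow]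
    exact pow_le_pow_left₀ (abs_nonneg _) hinv 2
  have hq : ∀ x : ℝ, |x| ≤ A → |-(x / φ0 ^ 2)| ≤ A ^ 3 := fun x hx => by
    rw [abs_neg, div_eq_mul_inv, abs_mul]
    calc |x| * |(φ0 ^ 2)⁻¹| ≤ A * A ^ 2 := mul_le_mul hx hinv2 (abs_nonneg _) hA0.le
      _ = A ^ 3 := by ring
  have hA7 : A ≤ 36 * A ^ 7 := by
    have h1 : A ^ 1 ≤ A ^ 7 := pow_le_pow_right₀ hA (by norm_num)
    have h2 := hAp 7
    rw [pow_one] at h1
    linarith
  have hA37 : A ^ 3 ≤ 36 * A ^ 7 := by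
    have h1 : A ^ 3 ≤ A ^ 7 := pow_le_pow_right₀ hA (by norm_num)
    have h2 := hAp 7
    linarith
  refine ⟨by simp only [h.v0], ⟨hinv.trans hA7, (hq _ a2).trans hA37, (hq _ a3).trans hA37⟩, fun b c b' c' hb hc hb' hc' => ?_⟩
  have hS : |b| + |c| + |b'| + |c'| ≤ 1 := by linarith
  have hb0 := abs_nonneg b
  have hc0 := abs_nonneg c
  have hb0' := abs_nonneg b'
  have hc0' := abs_nonneg c'
  have hbig : ∀ x y : ℝ, |x| ≤ r → |y| ≤ r → |φ x y - φ0| ≤ 2 * A * (|x| + |y|) ∧ 1 / (2 * A) ≤ |φ x y| ∧ |φ x y| ≤ 2 * A := by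
    intro x y hx hy
    have e1 := GO2_val A r hA hr φ φ0 α β h x y hx hy (by linarith)
    have e2 : 2 * A * (|x| + |y|) ≤ 1 / (2 * A) := by
      have e3 : |x| + |y| ≤ 2 * (1 / (8 * A ^ 2)) := by linarith
      calc 2 * A * (|x| + |y|) ≤ 2 * A * (2 * (1 / (8 * A ^ 2))) := by gcongr
        _ = 1 / (2 * A) := by
          field_simp
          ring
    have e4 : |φ0| - |φ x y - φ0| ≤ |φ x y| := by
      have e5 := abs_add_le (φ x y) (-(φ x y - φ0))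
      rw [abs_neg] at e5
      have e6 : φ x y + -(φ x y - φ0) = φ0 := by ring
      rw [e6] at e5
      linarith
    have e7 : 1 / A = 1 / (2 * A) + 1 / (2 * A) := by
      field_simp
      ring
    have e8 : |φ x y| ≤ |φ0| + |φ x y - φ0| := by
      have e5 := abs_add_le φ0 (φ x y - φ0)
      have e6 : φ0 + (φ x y - φ0) = φ x y := by ring
      rwa [e6] at e5
    have e9 : 1 / (2 * A) ≤ A := by
      rw [div_le_iff₀ (by positivity)]
      nlinarith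
    refine ⟨e1, by linarith, by linarith⟩
  obtain ⟨u1, u2, u3⟩ := hbig b c hb hc
  obtain ⟨v1, v2, v3⟩ := hbig b' c' hb' hc'
  have e5 := h.tl b c b' c' hb hc hb' hc'
  have u1' : |φ b c - φ0| ≤ 2 * A * (|b| + |c| + |b'| + |c'|) := u1.trans (mul_le_mul_of_nonneg_left (by linarith) (by positivity))
  have v1' : |φ b' c' - φ0| ≤ 2 * A * (|b| + |c| + |b'| + |c'|) := v1.trans (mul_le_mul_of_nonneg_left (by linarith) (by positivity))
  have hL : |α * (b - b') + β * (c - c')| ≤ A * (|b - b'| + |c - c'|) := by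
    refine (abs_add_le _ _).trans ?_
    rw [abs_mul, abs_mul, mul_add]
    exact add_le_add (mul_le_mul_of_nonneg_right a2 (abs_nonneg _)) (mul_le_mul_of_nonneg_right a3 (abs_nonneg _))
  have hδ0 : 0 ≤ |b - b'| + |c - c'| := by positivity
  have hS0 : 0 ≤ |b| + |c| + |b'| + |c'| := by positivity
  have hφ : φ b c ≠ 0 := abs_pos.1 (lt_of_lt_of_le (by positivity) u2)
  have hφ' : φ b' c' ≠ 0 := abs_pos.1 (lt_of_lt_of_le (by positivity) v2)
  have hiv : ∀ x : ℝ, 1 / (2 * A) ≤ |x| → |x⁻¹| ≤ 2 * A := fun x hx => by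
    rw [abs_inv]
    have h1 := inv_anti₀ (by positivity : 0 < 1 / (2 * A)) hx
    rwa [one_div, inv_inv] at h1
  have i1 := hiv _ u2
  have i2 := hiv _ v2
  have hid : (φ b c)⁻¹ - (φ b' c')⁻¹ - -(α / φ0 ^ 2) * (b - b') - -(β / φ0 ^ 2) * (c - c') =
      -((φ b c - φ b' c' - α * (b - b') - β * (c - c')) * ((φ b c)⁻¹ * (φ b' c')⁻¹)) +
      (α * (b - b') + β * (c - c')) * (((φ b c - φ0) * φ b' c' + φ0 * (φ b' c' - φ0)) * ((φ0 ^ 2)⁻¹ * ((φ b c)⁻¹ * (φ b' c')⁻¹))) := by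
    field_simp
    ring
  rw [hid]
  generalize φ b c = F at *
  generalize φ b' c' = F' at *
  generalize |b| + |c| + |b'| + |c'| = S at *
  generalize |b - b'| + |c - c'| = δ at *
  have j1 : |F⁻¹ * F'⁻¹| ≤ 4 * A ^ 2 := by
    rw [abs_mul]
    calc |F⁻¹| * |F'⁻¹| ≤ (2 * A) * (2 * A) := mul_le_mul i1 i2 (abs_nonneg _) (by positivity)
      _ = 4 * A ^ 2 := by ring
  have j2 : |-((F - F' - α * (b - b') - β * (c - c')) * (F⁻¹ * F'⁻¹))| ≤ A * S * δ * (4 * A ^ 2) := by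
    rw [abs_neg, abs_mul]
    exact mul_le_mul e5 j1 (abs_nonneg _) (by positivity)
  have j3 : |(F - φ0) * F' + φ0 * (F' - φ0)| ≤ 6 * A ^ 2 * S := by
    refine (abs_add_le _ _).trans ?_
    rw [abs_mul, abs_mul]
    have k1 : |F - φ0| * |F'| ≤ 2 * A * S * (2 * A) := mul_le_mul u1' v3 (abs_nonneg _) (by positivity)
    have k2 : |φ0| * |F' - φ0| ≤ A * (2 * A * S) := mul_le_mul a1 v1' (abs_nonneg _) (by positivity)
    have k3 : 2 * A * S * (2 * A) + A * (2 * A * S) = 6 * A ^ 2 * S := by ring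
    linarith
  have j4 : |(φ0 ^ 2)⁻¹ * (F⁻¹ * F'⁻¹)| ≤ A ^ 2 * (4 * A ^ 2) := by
    rw [abs_mul]
    exact mul_le_mul hinv2 j1 (abs_nonneg _) (by positivity)
  have j5 : |((F - φ0) * F' + φ0 * (F' - φ0)) * ((φ0 ^ 2)⁻¹ * (F⁻¹ * F'⁻¹))| ≤ 6 * A ^ 2 * S * (A ^ 2 * (4 * A ^ 2)) := by
    rw [abs_mul]
    exact mul_le_mul j3 j4 (abs_nonneg _) (by positivity)
  have j6 : |(α * (b - b') + β * (c - c')) * (((F - φ0) * F' + φ0 * (F' - φ0)) * ((φ0 ^ 2)⁻¹ * (F⁻¹ * F'⁻¹)))| ≤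
      A * δ * (6 * A ^ 2 * S * (A ^ 2 * (4 * A ^ 2))) := by
    rw [abs_mul]
    exact mul_le_mul hL j5 (abs_nonneg _) (by positivity)
  refine (abs_add_le _ _).trans ((add_le_add j2 j6).trans ?_)
  have j7 : A * S * δ * (4 * A ^ 2) + A * δ * (6 * A ^ 2 * S * (A ^ 2 * (4 * A ^ 2))) = (4 * A ^ 3 + 24 * A ^ 7) * (S * δ) := by ring
  have j8 : 36 * A ^ 7 * S * δ = 36 * A ^ 7 * (S * δ) := by ring
  rw [j7, j8]
  refine mul_le_mul_of_nonneg_right ?_ (by positivity)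
  have h1 : A ^ 3 ≤ A ^ 7 := pow_le_pow_right₀ hA (by norm_num)
  have h2 := hAp 7
  linarith

theorem GO2_sqrt (A r : ℝ) (hA : 1 ≤ A) (hr4 : r ≤ 1 / 4) :
    TL A r (fun b c => √(1 + b * c)) 1 0 0 := by
  refine ⟨by simp, ⟨by rwa [abs_one], by rw [abs_zero]; linarith, by rw [abs_zero]; linarith⟩, fun b c b' c' hb hc hb' hc' => ?_⟩
  have hbc : ∀ x y : ℝ, |x| ≤ r → |y| ≤ r → 1 / 4 ≤ 1 + x * y := by
    intro x y hx hy
    have h1 : |x * y| ≤ 1 / 4 * (1 / 4) := by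
      rw [abs_mul]
      exact mul_le_mul (hx.trans hr4) (hy.trans hr4) (abs_nonneg _) (by norm_num)
    have h2 := neg_abs_le (x * y)
    linarith
  have hs : ∀ x y : ℝ, |x| ≤ r → |y| ≤ r → 1 / 2 ≤ √(1 + x * y) := by
    intro x y hx hy
    refine Real.le_sqrt_of_sq_le ?_
    have := hbc x y hx hy
    linarith
  have h1 := hs b c hb hc
  have h2 := hs b' c' hb' hc'
  have h3 := Real.sq_sqrt (by linarith [hbc b c hb hc] : (0 : ℝ) ≤ 1 + b * c)
  have h4 := Real.sq_sqrt (by linarith [hbc b' c' hb' hc'] : (0 : ℝ) ≤ 1 + b' * c')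
  rw [zero_mul, zero_mul, sub_zero, sub_zero]
  have h5 : (√(1 + b * c) - √(1 + b' * c')) * (√(1 + b * c) + √(1 + b' * c')) = b * (c - c') + c' * (b - b') := by
    linear_combination h3 - h4
  have h6 : |√(1 + b * c) - √(1 + b' * c')| ≤ |b * (c - c') + c' * (b - b')| := by
    rw [← h5, abs_mul]
    refine le_mul_of_one_le_right (abs_nonneg _) ?_
    rw [abs_of_nonneg (by linarith)]
    linarith
  refine h6.trans ?_
  have h7 := abs_add_le (b * (c - c')) (c' * (b - b'))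
  rw [abs_mul, abs_mul] at h7
  have hb0 := abs_nonneg b
  have hc0 := abs_nonneg c
  have hb0' := abs_nonneg b'
  have hc0' := abs_nonneg c'
  have h8 : |b| * |c - c'| ≤ (|b| + |c| + |b'| + |c'|) * |c - c'| := mul_le_mul_of_nonneg_right (by linarith) (abs_nonneg _)
  have h9 : |c'| * |b - b'| ≤ (|b| + |c| + |b'| + |c'|) * |b - b'| := mul_le_mul_of_nonneg_right (by linarith) (abs_nonneg _)
  have h10 : (|b| + |c| + |b'| + |c'|) * (|b - b'| + |c - c'|) ≤ A * ((|b| + |c| + |b'| + |c'|) * (|b - b'| + |c - c'|)) :=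
    le_mul_of_one_le_left (by positivity) hA
  nlinarith

theorem GO2_proof : GO2_stmt := by
  intro A r hA hr
  have hA0 : 0 < A := by linarith
  have hAp : ∀ n : ℕ, 1 ≤ A ^ n := fun n => one_le_pow₀ hA
  have hA7 : A ^ 2 ≤ A ^ 7 := pow_le_pow_right₀ hA (by norm_num)
  have hA17 : A ≤ A ^ 7 := by
    have h1 : A ^ 1 ≤ A ^ 7 := pow_le_pow_right₀ hA (by norm_num)
    rwa [pow_one] at h1
  have h7 := hAp 7
  have hr8 : (1 : ℝ) / (8 * A ^ 2) ≤ 1 / 8 := one_div_le_one_div_of_le (by norm_num) (by nlinarith [hAp 2])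
  have hr' : 0 < min r (1 / (8 * A ^ 2)) := lt_min hr (by positivity)
  have hr'' : min r (1 / (8 * A ^ 2)) ≤ 1 / (8 * A ^ 2) := min_le_right _ _
  have hr4 : min r (1 / (8 * A ^ 2)) ≤ 1 / 4 := by linarith
  have h36 : 1 ≤ 36 * A ^ 7 := by linarith
  refine ⟨36 * A ^ 7, min r (1 / (8 * A ^ 2)), h36, hr', min_le_left _ _, ?_, ?_, ?_, ?_, ?_⟩
  · intro φ ψ φ0 α β ψ0 α' β' h h'
    have k := GO2_mono A r A (min r (1 / (8 * A ^ 2))) le_rfl (min_le_left _ _) _ _ _ _ h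
    have k' := GO2_mono A r A (min r (1 / (8 * A ^ 2))) le_rfl (min_le_left _ _) _ _ _ _ h'
    refine ⟨?_, ?_, ?_, ?_⟩
    · exact GO2_mono _ _ _ _ (by linarith) le_rfl _ _ _ _ (GO2_add A _ _ _ _ _ _ _ _ _ k k')
    · exact GO2_mono _ _ _ _ (by linarith) le_rfl _ _ _ _ (GO2_sub A _ _ _ _ _ _ _ _ _ k k')
    · exact GO2_mono _ _ _ _ (by linarith) le_rfl _ _ _ _ (GO2_mul A _ hA hr' hr4 _ _ _ _ _ _ _ _ k k')
    · intro h0
      exact GO2_inv A _ hA hr' hr'' _ _ _ _ k h0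
  · exact GO2_sqrt _ _ h36 hr4
  · refine ⟨rfl, ⟨?_, ?_, ?_⟩, fun b c b' c' _ _ _ _ => ?_⟩
    · rw [abs_zero]
      linarith
    · rw [abs_one]
      exact h36
    · rw [abs_zero]
      linarith
    · have : b - b' - 1 * (b - b') - 0 * (c - c') = 0 := by ring
      rw [this, abs_zero]
      positivity
  · refine ⟨rfl, ⟨?_, ?_, ?_⟩, fun b c b' c' _ _ _ _ => ?_⟩
    · rw [abs_zero]
      linarith
    · rw [abs_zero]
      linarith
    · rw [abs_one]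
      exact h36
    · have : c - c' - 0 * (b - b') - 1 * (c - c') = 0 := by ring
      rw [this, abs_zero]
      positivity
  · intro a ha
    refine ⟨rfl, ⟨by linarith, ?_, ?_⟩, fun b c b' c' _ _ _ _ => ?_⟩
    · rw [abs_zero]
      linarith
    · rw [abs_zero]
      linarith
    · have : a - a - 0 * (b - b') - 0 * (c - c') = 0 := by ring
      rw [this, abs_zero]
      positivity

end Pool.Agent.VNE
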