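import Pool.Agent.helper62.VN.SpecE

/-!
# Row vne:NDC (MP_07c750): the quadratic form of approximate solutions of the Jacobi system
-/

set_option autoImplicit false

open scoped MatrixGroups ContDiff Topology UpperHalfPlane
open UpperHalfPlane MeasureTheory Filter Set

namespace Pool.Agent.VNE

open Pool.Agent.RS Pool.Agent.VQE

theorem NDC_mono (f : ℝ → ℝ) (a b : ℝ) (h : ∀ t ∈ Icc a b, ∃ d, HasDerivAt f d t ∧ 0 ≤ d) : MonotoneOn f (Icc a b) := by
  have hd : ∀ t ∈ Icc a b, DifferentiableAt ℝ f t := fun t ht => by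
    obtain ⟨d, hd, -⟩ := h t ht
    exact hd.differentiableAt
  refine monotoneOn_of_deriv_nonneg (convex_Icc a b) (fun t ht => (hd t ht).continuousAt.continuousWithinAt)
    (fun t ht => (hd t (interior_subset ht)).differentiableWithinAt) fun t ht => ?_
  obtain ⟨d, hd, hd0⟩ := h t (interior_subset ht)
  rw [hd.deriv]
  exact hd0

/-- pointwise estimates -/
theorem NDC_pt (K : ℝ) (hK : 1 ≤ K) (η P k β χ : ℝ → ℝ) (a b : ℝ) (h : LSy K η P k β χ a b) (t : ℝ) (ht : t ∈ Icc a b) :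
    ∃ β' χ' : ℝ, HasDerivAt β β' t ∧ HasDerivAt χ χ' t ∧
      3 / (4 * K) * (β t ^ 2 + χ t ^ 2) ≤ β' * χ t + β t * χ' ∧
      |2 * β t * β' + 2 * χ t * χ'| ≤ 3 * K * (β t ^ 2 + χ t ^ 2) := by
  obtain ⟨hP, hP', hk, hk', hη, hη'⟩ := h.bd t ht
  obtain ⟨β', χ', h1, h2, h3, h4⟩ := h.d t ht
  have hK0 : 0 < K := by linarith
  refine ⟨β', χ', h1, h2, ?_, ?_⟩
  · generalize β t = B at *
    generalize χ t = X at *
    generalize P t = p at *
    generalize k t = q at *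
    generalize η t = e at *
    have e1 : (β' - p * X) * X ≥ -(e * (|B| + |X|) * |X|) := by
      have := abs_mul (β' - p * X) X
      have h5 := neg_abs_le ((β' - p * X) * X)
      have h6 : |β' - p * X| * |X| ≤ e * (|B| + |X|) * |X| := mul_le_mul_of_nonneg_right h3 (abs_nonneg _)
      linarith
    have e2 : B * (χ' - q * B) ≥ -(e * (|B| + |X|) * |B|) := by
      have := abs_mul B (χ' - q * B)
      have h5 := neg_abs_le (B * (χ' - q * B))
      have h6 : |B| * |χ' - q * B| ≤ |B| * (e * (|B| + |X|)) := mul_le_mul_of_nonneg_left h4 (abs_nonneg _)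
      linarith
    have e3 : e * (|B| + |X|) * |X| + e * (|B| + |X|) * |B| ≤ 1 / (4 * K) * (B ^ 2 + X ^ 2) := by
      have h7 : (|B| + |X|) ^ 2 ≤ 2 * (B ^ 2 + X ^ 2) := by
        nlinarith [sq_nonneg (|B| - |X|), sq_abs B, sq_abs X]
      have h8 : e * (|B| + |X|) ^ 2 ≤ 1 / (8 * K) * (2 * (B ^ 2 + X ^ 2)) :=
        mul_le_mul hη' h7 (sq_nonneg _) (by positivity)
      have h9 : 1 / (8 * K) * (2 * (B ^ 2 + X ^ 2)) = 1 / (4 * K) * (B ^ 2 + X ^ 2) := by
        field_simp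
        ring
      rw [h9] at h8
      calc e * (|B| + |X|) * |X| + e * (|B| + |X|) * |B| = e * (|B| + |X|) ^ 2 := by ring
        _ ≤ _ := h8
    have e4 : 1 / K * X ^ 2 ≤ p * X ^ 2 := mul_le_mul_of_nonneg_right hP (sq_nonneg _)
    have e5 : 1 / K * B ^ 2 ≤ q * B ^ 2 := mul_le_mul_of_nonneg_right hk (sq_nonneg _)
    have e6 : 3 / (4 * K) * (B ^ 2 + X ^ 2) = 1 / K * X ^ 2 + 1 / K * B ^ 2 - 1 / (4 * K) * (B ^ 2 + X ^ 2) := by
      field_simp
      ring
    rw [e6]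
    have e7 : β' * X + B * χ' = p * X ^ 2 + q * B ^ 2 + (β' - p * X) * X + B * (χ' - q * B) := by ring
    rw [e7]
    linarith
  · generalize β t = B at *
    generalize χ t = X at *
    generalize P t = p at *
    generalize k t = q at *
    generalize η t = e at *
    have hp0 : 0 ≤ p := le_trans (by positivity) hP
    have hq0 : 0 ≤ q := le_trans (by positivity) hk
    have h7 : (|B| + |X|) ^ 2 ≤ 2 * (B ^ 2 + X ^ 2) := by
      nlinarith [sq_nonneg (|B| - |X|), sq_abs B, sq_abs X]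
    have hbx : 2 * (|B| * |X|) ≤ B ^ 2 + X ^ 2 := by
      nlinarith [sq_nonneg (|B| - |X|), sq_abs B, sq_abs X]
    have e0 : 2 * B * β' + 2 * X * χ' = 2 * (p + q) * (B * X) + (2 * B * (β' - p * X) + 2 * X * (χ' - q * B)) := by ring
    rw [e0]
    have e1 : |2 * (p + q) * (B * X)| ≤ 4 * K * (|B| * |X|) := by
      rw [abs_mul, abs_mul B X, abs_of_nonneg (by positivity)]
      exact mul_le_mul_of_nonneg_right (by linarith) (by positivity)
    have e2 : |2 * B * (β' - p * X)| ≤ 2 * |B| * (e * (|B| + |X|)) := by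
      rw [abs_mul, abs_mul 2 B, abs_of_pos (by norm_num : (0 : ℝ) < 2)]
      exact mul_le_mul_of_nonneg_left h3 (by positivity)
    have e3 : |2 * X * (χ' - q * B)| ≤ 2 * |X| * (e * (|B| + |X|)) := by
      rw [abs_mul, abs_mul 2 X, abs_of_pos (by norm_num : (0 : ℝ) < 2)]
      exact mul_le_mul_of_nonneg_left h4 (by positivity)
    have e4 : e * (|B| + |X|) ^ 2 ≤ 1 / 8 * (2 * (B ^ 2 + X ^ 2)) := by
      refine mul_le_mul (hη'.trans ?_) h7 (sq_nonneg _) (by norm_num)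
      exact one_div_le_one_div_of_le (by norm_num) (by linarith)
    have e5 := abs_add_le (2 * (p + q) * (B * X)) (2 * B * (β' - p * X) + 2 * X * (χ' - q * B))
    have e6 := abs_add_le (2 * B * (β' - p * X)) (2 * X * (χ' - q * B))
    have e7 : 4 * K * (|B| * |X|) ≤ 2 * K * (B ^ 2 + X ^ 2) := by nlinarith [hbx, hK0]
    have e8 : 2 * |B| * (e * (|B| + |X|)) + 2 * |X| * (e * (|B| + |X|)) = 2 * (e * (|B| + |X|) ^ 2) := by ring
    have e9 : (B ^ 2 + X ^ 2) ≤ K * (B ^ 2 + X ^ 2) := by nlinarith [sq_nonneg B, sq_nonneg X]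
    nlinarith

theorem NDC_N (K : ℝ) (hK : 1 ≤ K) (η P k β χ : ℝ → ℝ) (a b : ℝ) (h : LSy K η P k β χ a b) :
    (∀ s ∈ Icc a b, ∀ t ∈ Icc a b, s ≤ t → β t ^ 2 + χ t ^ 2 ≤ Real.exp (3 * K * (t - s)) * (β s ^ 2 + χ s ^ 2)) ∧
    (∀ s ∈ Icc a b, ∀ t ∈ Icc a b, s ≤ t → β s ^ 2 + χ s ^ 2 ≤ Real.exp (3 * K * (t - s)) * (β t ^ 2 + χ t ^ 2)) := by
  have h1 : MonotoneOn (fun x => Real.exp (3 * K * x) * (β x ^ 2 + χ x ^ 2)) (Icc a b) := by
    refine NDC_mono _ a b fun t ht => ?_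
    obtain ⟨β', χ', d1, d2, -, h4⟩ := NDC_pt K hK η P k β χ a b h t ht
    have d3 : HasDerivAt (fun x => Real.exp (3 * K * x)) (Real.exp (3 * K * t) * (3 * K)) t := by
      have := ((hasDerivAt_id t).const_mul (3 * K)).exp
      simpa using this
    refine ⟨_, d3.mul ((d1.pow 2).add (d2.pow 2)), ?_⟩
    have h5 := neg_abs_le (2 * β t * β' + 2 * χ t * χ')
    have h6 : Real.exp (3 * K * t) * (3 * K) * (β t ^ 2 + χ t ^ 2) + Real.exp (3 * K * t) * ((2 : ℕ) * β t ^ (2 - 1) * β' + (2 : ℕ) * χ t ^ (2 - 1) * χ') =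
        Real.exp (3 * K * t) * (3 * K * (β t ^ 2 + χ t ^ 2) + (2 * β t * β' + 2 * χ t * χ')) := by
      push_cast
      ring
    have h7 : 0 ≤ Real.exp (3 * K * t) * (3 * K * (β t ^ 2 + χ t ^ 2) + (2 * β t * β' + 2 * χ t * χ')) :=
      mul_nonneg (Real.exp_pos _).le (by linarith)
    rw [← h6] at h7
    exact h7
  have h2 : MonotoneOn (fun x => -(Real.exp (-(3 * K * x)) * (β x ^ 2 + χ x ^ 2))) (Icc a b) := by
    refine NDC_mono _ a b fun t ht => ?_
    obtain ⟨β', χ', d1, d2, -, h4⟩ := NDC_pt K hK η P k β χ a b h t ht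
    have d3 : HasDerivAt (fun x => Real.exp (-(3 * K * x))) (Real.exp (-(3 * K * t)) * (-(3 * K))) t := by
      have := (((hasDerivAt_id t).const_mul (3 * K)).neg).exp
      simpa using this
    refine ⟨_, (d3.mul ((d1.pow 2).add (d2.pow 2))).neg, ?_⟩
    have h5 := le_abs_self (2 * β t * β' + 2 * χ t * χ')
    have h6 : -(Real.exp (-(3 * K * t)) * (-(3 * K)) * (β t ^ 2 + χ t ^ 2) + Real.exp (-(3 * K * t)) * ((2 : ℕ) * β t ^ (2 - 1) * β' + (2 : ℕ) * χ t ^ (2 - 1) * χ')) =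
        Real.exp (-(3 * K * t)) * (3 * K * (β t ^ 2 + χ t ^ 2) - (2 * β t * β' + 2 * χ t * χ')) := by
      push_cast
      ring
    have h7 : 0 ≤ Real.exp (-(3 * K * t)) * (3 * K * (β t ^ 2 + χ t ^ 2) - (2 * β t * β' + 2 * χ t * χ')) :=
      mul_nonneg (Real.exp_pos _).le (by linarith)
    rw [← h6] at h7
    exact h7
  constructor
  · intro s hs t ht hst
    have h3 := h2 hs ht hst
    dsimp only at h3
    have h4 : Real.exp (-(3 * K * t)) * (β t ^ 2 + χ t ^ 2) ≤ Real.exp (-(3 * K * s)) * (β s ^ 2 + χ s ^ 2) := by linarith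
    have h5 := mul_le_mul_of_nonneg_left h4 (Real.exp_pos (3 * K * t)).le
    rw [← mul_assoc, ← mul_assoc, ← Real.exp_add, ← Real.exp_add] at h5
    have h6 : 3 * K * t + -(3 * K * t) = 0 := by ring
    have h7 : 3 * K * t + -(3 * K * s) = 3 * K * (t - s) := by ring
    rw [h6, h7, Real.exp_zero, one_mul] at h5
    exact h5
  · intro s hs t ht hst
    have h3 := h1 hs ht hst
    dsimp only at h3
    have h5 := mul_le_mul_of_nonneg_left h3 (Real.exp_pos (-(3 * K * s))).le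
    rw [← mul_assoc, ← mul_assoc, ← Real.exp_add, ← Real.exp_add] at h5
    have h6 : -(3 * K * s) + 3 * K * s = 0 := by ring
    have h7 : -(3 * K * s) + 3 * K * t = 3 * K * (t - s) := by ring
    rw [h6, h7, Real.exp_zero, one_mul] at h5
    exact h5

theorem NDC_Q (K : ℝ) (hK : 1 ≤ K) (η P k β χ : ℝ → ℝ) (a b : ℝ) (h : LSy K η P k β χ a b) (s : ℝ) (hs : s ∈ Icc a b)
    (t : ℝ) (ht : t ∈ Icc a b) (hst : s ≤ t) :
    1 / (4 * K ^ 2) * (1 - Real.exp (-(3 * K * (t - s)))) * (β s ^ 2 + χ s ^ 2) ≤ β t * χ t - β s * χ s ∧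
    1 / (4 * K ^ 2) * (1 - Real.exp (-(3 * K * (t - s)))) * (β t ^ 2 + χ t ^ 2) ≤ β t * χ t - β s * χ s := by
  have hK0 : 0 < K := by linarith
  obtain ⟨n1, n2⟩ := NDC_N K hK η P k β χ a b h
  have hsub : Icc s t ⊆ Icc a b := Icc_subset_Icc hs.1 ht.2
  constructor
  · have h1 : MonotoneOn (fun x => β x * χ x + 1 / (4 * K ^ 2) * Real.exp (-(3 * K * (x - s))) * (β s ^ 2 + χ s ^ 2)) (Icc s t) := by
      refine NDC_mono _ s t fun x hx => ?_
      obtain ⟨β', χ', d1, d2, h3, -⟩ := NDC_pt K hK η P k β χ a b h x (hsub hx)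
      have d3 : HasDerivAt (fun x => Real.exp (-(3 * K * (x - s)))) (Real.exp (-(3 * K * (x - s))) * (-(3 * K))) x := by
        have := ((((hasDerivAt_id x).sub_const s).const_mul (3 * K)).neg).exp
        simpa using this
      refine ⟨_, (d1.mul d2).add ((d3.const_mul (1 / (4 * K ^ 2))).mul_const (β s ^ 2 + χ s ^ 2)), ?_⟩
      have h4 := n2 s hs x (hsub hx) hx.1
      have h5 := mul_le_mul_of_nonneg_left h4 (Real.exp_pos (-(3 * K * (x - s)))).le
      rw [← mul_assoc (Real.exp _) (Real.exp _), ← Real.exp_add, neg_add_cancel, Real.exp_zero, one_mul] at h5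
      have h6 : β' * χ x + β x * χ' + 1 / (4 * K ^ 2) * (Real.exp (-(3 * K * (x - s))) * -(3 * K)) * (β s ^ 2 + χ s ^ 2) =
          β' * χ x + β x * χ' - 3 / (4 * K) * (Real.exp (-(3 * K * (x - s))) * (β s ^ 2 + χ s ^ 2)) := by
        field_simp
        ring
      rw [h6]
      have h7 : 3 / (4 * K) * (Real.exp (-(3 * K * (x - s))) * (β s ^ 2 + χ s ^ 2)) ≤ 3 / (4 * K) * (β x ^ 2 + χ x ^ 2) :=
        mul_le_mul_of_nonneg_left h5 (by positivity)
      linarith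
    have h2 := h1 (left_mem_Icc.2 hst) (right_mem_Icc.2 hst) hst
    dsimp only at h2
    rw [sub_self, mul_zero, neg_zero, Real.exp_zero] at h2
    have h3 : 1 / (4 * K ^ 2) * (1 - Real.exp (-(3 * K * (t - s)))) * (β s ^ 2 + χ s ^ 2) =
      1 / (4 * K ^ 2) * 1 * (β s ^ 2 + χ s ^ 2) - 1 / (4 * K ^ 2) * Real.exp (-(3 * K * (t - s))) * (β s ^ 2 + χ s ^ 2) := by ring
    rw [h3]
    linarith
  · have h1 : MonotoneOn (fun x => β x * χ x - 1 / (4 * K ^ 2) * Real.exp (-(3 * K * (t - x))) * (β t ^ 2 + χ t ^ 2)) (Icc s t) := by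
      refine NDC_mono _ s t fun x hx => ?_
      obtain ⟨β', χ', d1, d2, h3, -⟩ := NDC_pt K hK η P k β χ a b h x (hsub hx)
      have d3 : HasDerivAt (fun x => Real.exp (-(3 * K * (t - x)))) (Real.exp (-(3 * K * (t - x))) * (3 * K)) x := by
        have := ((((hasDerivAt_id x).const_sub t).const_mul (3 * K)).neg).exp
        simpa using this
      refine ⟨_, (d1.mul d2).sub ((d3.const_mul (1 / (4 * K ^ 2))).mul_const (β t ^ 2 + χ t ^ 2)), ?_⟩
      have h4 := n1 x (hsub hx) t ht hx.2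
      have h5 := mul_le_mul_of_nonneg_left h4 (Real.exp_pos (-(3 * K * (t - x)))).le
      rw [← mul_assoc (Real.exp _) (Real.exp _), ← Real.exp_add, neg_add_cancel, Real.exp_zero, one_mul] at h5
      have h6 : β' * χ x + β x * χ' - 1 / (4 * K ^ 2) * (Real.exp (-(3 * K * (t - x))) * (3 * K)) * (β t ^ 2 + χ t ^ 2) =
          β' * χ x + β x * χ' - 3 / (4 * K) * (Real.exp (-(3 * K * (t - x))) * (β t ^ 2 + χ t ^ 2)) := by
        field_simp
      rw [h6]
      have h7 : 3 / (4 * K) * (Real.exp (-(3 * K * (t - x))) * (β t ^ 2 + χ t ^ 2)) ≤ 3 / (4 * K) * (β x ^ 2 + χ x ^ 2) :=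
        mul_le_mul_of_nonneg_left h5 (by positivity)
      linarith
    have h2 := h1 (left_mem_Icc.2 hst) (right_mem_Icc.2 hst) hst
    dsimp only at h2
    rw [sub_self, mul_zero, neg_zero, Real.exp_zero] at h2
    have h3 : 1 / (4 * K ^ 2) * (1 - Real.exp (-(3 * K * (t - s)))) * (β t ^ 2 + χ t ^ 2) =
      1 / (4 * K ^ 2) * 1 * (β t ^ 2 + χ t ^ 2) - 1 / (4 * K ^ 2) * Real.exp (-(3 * K * (t - s))) * (β t ^ 2 + χ t ^ 2) := by ring
    rw [h3]
    linarith

theorem NDC_exp (y : ℝ) (hy : 0 ≤ y) : min 1 y / 2 ≤ 1 - Real.exp (-y) := by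
  rcases le_total y 1 with h | h
  · rw [min_eq_right h]
    have h1 : (1 + y) * Real.exp (-y) ≤ 1 := by
      have h2 := Real.add_one_le_exp y
      have h3 := mul_le_mul_of_nonneg_right h2 (Real.exp_pos (-y)).le
      rw [← Real.exp_add, add_neg_cancel, Real.exp_zero] at h3
      linarith
    have h4 : Real.exp (-y) ≤ 1 / (1 + y) := by
      rw [le_div_iff₀ (by linarith)]
      linarith
    have h5 : 1 / (1 + y) ≤ 1 - y / 2 := by
      rw [div_le_iff₀ (by linarith)]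
      nlinarith
    linarith
  · rw [min_eq_left h]
    have h1 : Real.exp (-y) ≤ Real.exp (-1) := Real.exp_le_exp.2 (by linarith)
    have h2 : Real.exp (-1) ≤ 1 / 2 := by
      have h3 := Real.add_one_le_exp (1 : ℝ)
      have h4 := mul_le_mul_of_nonneg_right h3 (Real.exp_pos (-1)).le
      rw [← Real.exp_add, add_neg_cancel, Real.exp_zero] at h4
      linarith
    linarith

theorem NDC_Q2 (K : ℝ) (hK : 1 ≤ K) (η P k β χ : ℝ → ℝ) (a b : ℝ) (h : LSy K η P k β χ a b) (s : ℝ) (hs : s ∈ Icc a b)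
    (t : ℝ) (ht : t ∈ Icc a b) (hst : s ≤ t) :
    min 1 (t - s) * (β s ^ 2 + χ s ^ 2) / (8 * K ^ 2) ≤ β t * χ t - β s * χ s ∧
    min 1 (t - s) * (β t ^ 2 + χ t ^ 2) / (8 * K ^ 2) ≤ β t * χ t - β s * χ s := by
  have hK0 : 0 < K := by linarith
  obtain ⟨h1, h2⟩ := NDC_Q K hK η P k β χ a b h s hs t ht hst
  have h3 := NDC_exp (3 * K * (t - s)) (mul_nonneg (by positivity) (by linarith))
  have h4 : min 1 (t - s) ≤ min 1 (3 * K * (t - s)) := min_le_min_left 1 (by nlinarith)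
  have h5 : min 1 (t - s) / 2 ≤ 1 - Real.exp (-(3 * K * (t - s))) := by linarith
  constructor
  · refine le_trans ?_ h1
    have h6 : min 1 (t - s) * (β s ^ 2 + χ s ^ 2) / (8 * K ^ 2) = 1 / (4 * K ^ 2) * (min 1 (t - s) / 2) * (β s ^ 2 + χ s ^ 2) := by
      field_simp
      ring
    rw [h6]
    gcongr
  · refine le_trans ?_ h2
    have h6 : min 1 (t - s) * (β t ^ 2 + χ t ^ 2) / (8 * K ^ 2) = 1 / (4 * K ^ 2) * (min 1 (t - s) / 2) * (β t ^ 2 + χ t ^ 2) := by
      field_simp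
      ring
    rw [h6]
    gcongr

/-- the decay of `N` -/
theorem NDC_dec (K : ℝ) (hK : 1 ≤ K) (η P k β χ : ℝ → ℝ) (a b : ℝ) (h : LSy K η P k β χ a b) (hQ : β b * χ b ≤ 0)
    (t : ℝ) (ht : t ∈ Icc a b) :
    β t ^ 2 + χ t ^ 2 ≤ 4 * K ^ 2 * Real.exp (3 * K + 2) * Real.exp (-(3 / (2 * K) * (t - a))) * (β a ^ 2 + χ a ^ 2) := by
  have hK0 : 0 < K := by linarith
  have hab : a ≤ b := ht.1.trans ht.2
  obtain ⟨n1, n2⟩ := NDC_N K hK η P k β χ a b h
  have hQm : ∀ x ∈ Icc a b, β x * χ x ≤ 0 := by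
    intro x hx
    have h1 := (NDC_Q2 K hK η P k β χ a b h x hx b (right_mem_Icc.2 hab) hx.2).1
    have h2 : 0 ≤ min 1 (b - x) * (β x ^ 2 + χ x ^ 2) / (8 * K ^ 2) := by
      have : 0 ≤ min 1 (b - x) := le_min (by norm_num) (by linarith [hx.2])
      positivity
    linarith
  -- decay of `-Q`
  have hR : ∀ x ∈ Icc a b, -(β x * χ x) ≤ Real.exp (-(3 / (2 * K) * (x - a))) * (-(β a * χ a)) := by
    intro x hx
    have h1 : MonotoneOn (fun y => Real.exp (3 / (2 * K) * (y - a)) * (β y * χ y)) (Icc a b) := by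
      refine NDC_mono _ a b fun y hy => ?_
      obtain ⟨β', χ', d1, d2, h3, -⟩ := NDC_pt K hK η P k β χ a b h y hy
      have d3 : HasDerivAt (fun x => Real.exp (3 / (2 * K) * (x - a))) (Real.exp (3 / (2 * K) * (y - a)) * (3 / (2 * K))) y := by
        have := (((hasDerivAt_id y).sub_const a).const_mul (3 / (2 * K))).exp
        simpa using this
      refine ⟨_, d3.mul (d1.mul d2), ?_⟩
      have h4 : Real.exp (3 / (2 * K) * (y - a)) * (3 / (2 * K)) * (β y * χ y) + Real.exp (3 / (2 * K) * (y - a)) * (β' * χ y + β y * χ') =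
          Real.exp (3 / (2 * K) * (y - a)) * (3 / (2 * K) * (β y * χ y) + (β' * χ y + β y * χ')) := by ring
      have h5 : 3 / (4 * K) * (β y ^ 2 + χ y ^ 2) + 3 / (2 * K) * (β y * χ y) = 3 / (4 * K) * (β y + χ y) ^ 2 := by
        field_simp
        ring
      have h6 : 0 ≤ 3 / (4 * K) * (β y + χ y) ^ 2 := by positivity
      have h7 : 0 ≤ Real.exp (3 / (2 * K) * (y - a)) * (3 / (2 * K) * (β y * χ y) + (β' * χ y + β y * χ')) :=
        mul_nonneg (Real.exp_pos _).le (by linarith)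
      rw [← h4] at h7
      exact h7
    have h2 := h1 (left_mem_Icc.2 hab) hx hx.1
    dsimp only at h2
    rw [sub_self, mul_zero, Real.exp_zero, one_mul] at h2
    have h3 := mul_le_mul_of_nonneg_left h2 (Real.exp_pos (-(3 / (2 * K) * (x - a)))).le
    rw [← mul_assoc (Real.exp _) (Real.exp _), ← Real.exp_add, neg_add_cancel, Real.exp_zero, one_mul] at h3
    linarith
  have hQN : -(β a * χ a) ≤ (β a ^ 2 + χ a ^ 2) / 2 := by nlinarith [sq_nonneg (β a + χ a)]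
  have hμ1 : 3 / (2 * K) ≤ 2 := by
    rw [div_le_iff₀ (by positivity)]
    nlinarith
  have hN0 : 0 ≤ β a ^ 2 + χ a ^ 2 := by positivity
  rcases le_total t (a + 1) with h1 | h1
  · have h2 := n1 a (left_mem_Icc.2 hab) t ht ht.1
    refine h2.trans ?_
    refine mul_le_mul_of_nonneg_right ?_ hN0
    have h3 : Real.exp (3 * K * (t - a)) ≤ Real.exp (3 * K + 2) * Real.exp (-(3 / (2 * K) * (t - a))) := by
      rw [← Real.exp_add]
      refine Real.exp_le_exp.2 ?_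
      have h4 : 3 / (2 * K) * (t - a) ≤ 2 * 1 := mul_le_mul hμ1 (by linarith) (by linarith [ht.1]) (by norm_num)
      nlinarith [ht.1]
    have h5 : (1 : ℝ) ≤ 4 * K ^ 2 := by nlinarith
    calc Real.exp (3 * K * (t - a)) ≤ Real.exp (3 * K + 2) * Real.exp (-(3 / (2 * K) * (t - a))) := h3
      _ = 1 * (Real.exp (3 * K + 2) * Real.exp (-(3 / (2 * K) * (t - a)))) := by rw [one_mul]
      _ ≤ 4 * K ^ 2 * (Real.exp (3 * K + 2) * Real.exp (-(3 / (2 * K) * (t - a)))) :=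
        mul_le_mul_of_nonneg_right h5 (by positivity)
      _ = _ := by ring
  · have hx : t - 1 ∈ Icc a b := ⟨by linarith, by linarith [ht.2]⟩
    have h2 := (NDC_Q2 K hK η P k β χ a b h (t - 1) hx t ht (by linarith)).2
    have h3 : t - (t - 1) = 1 := by ring
    rw [h3, min_self, one_mul] at h2
    have h4 := hQm t ht
    have h5 := hR (t - 1) hx
    have h6 : β t ^ 2 + χ t ^ 2 ≤ 8 * K ^ 2 * (-(β (t - 1) * χ (t - 1))) := by
      have h7 : (β t ^ 2 + χ t ^ 2) / (8 * K ^ 2) ≤ -(β (t - 1) * χ (t - 1)) := by linarith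
      rw [div_le_iff₀ (by positivity)] at h7
      linarith
    have h8 : Real.exp (-(3 / (2 * K) * (t - 1 - a))) ≤ Real.exp (3 * K + 2) * Real.exp (-(3 / (2 * K) * (t - a))) := by
      rw [← Real.exp_add]
      refine Real.exp_le_exp.2 ?_
      have h9 : -(3 / (2 * K) * (t - 1 - a)) = 3 / (2 * K) - 3 / (2 * K) * (t - a) := by ring
      rw [h9]
      linarith
    calc β t ^ 2 + χ t ^ 2 ≤ 8 * K ^ 2 * (-(β (t - 1) * χ (t - 1))) := h6
      _ ≤ 8 * K ^ 2 * (Real.exp (-(3 / (2 * K) * (t - 1 - a))) * (-(β a * χ a))) :=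
        mul_le_mul_of_nonneg_left h5 (by positivity)
      _ ≤ 8 * K ^ 2 * (Real.exp (-(3 / (2 * K) * (t - 1 - a))) * ((β a ^ 2 + χ a ^ 2) / 2)) := by gcongr
      _ ≤ 8 * K ^ 2 * ((Real.exp (3 * K + 2) * Real.exp (-(3 / (2 * K) * (t - a)))) * ((β a ^ 2 + χ a ^ 2) / 2)) := by gcongr
      _ = _ := by ring

/-- from `N` to `|v|` -/
theorem NDC_sq (x y u v c e : ℝ) (_hc : 0 ≤ c) (he : 0 ≤ e) (h : x ^ 2 + y ^ 2 ≤ c * e * (u ^ 2 + v ^ 2)) (C f : ℝ) (hC : 0 ≤ C) (hf : 0 ≤ f)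
    (hC2 : 2 * c ≤ C ^ 2) (hf2 : e ≤ f ^ 2) : |x| + |y| ≤ C * f * (|u| + |v|) := by
  have h1 : (|x| + |y|) ^ 2 ≤ 2 * (x ^ 2 + y ^ 2) := by
    nlinarith [sq_nonneg (|x| - |y|), sq_abs x, sq_abs y]
  have h2 : u ^ 2 + v ^ 2 ≤ (|u| + |v|) ^ 2 := by
    nlinarith [mul_nonneg (abs_nonneg u) (abs_nonneg v), sq_abs u, sq_abs v]
  have h3 : (|x| + |y|) ^ 2 ≤ (C * f * (|u| + |v|)) ^ 2 := by
    calc (|x| + |y|) ^ 2 ≤ 2 * (x ^ 2 + y ^ 2) := h1
      _ ≤ 2 * (c * e * (u ^ 2 + v ^ 2)) := by linarith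
      _ = (2 * c) * e * (u ^ 2 + v ^ 2) := by ring
      _ ≤ C ^ 2 * f ^ 2 * (|u| + |v|) ^ 2 := by gcongr
      _ = _ := by ring
  exact abs_le_of_sq_le_sq' h3 (by positivity) |>.2

theorem NDC_pos (K : ℝ) (hK : 1 ≤ K) (η P k β χ : ℝ → ℝ) (a b : ℝ) (h : LSy K η P k β χ a b) (hQ : β b * χ b ≤ 0)
    (t : ℝ) (ht : t ∈ Icc a b) :
    |β t| + |χ t| ≤ 32 * K ^ 2 * Real.exp (3 * K + 2) * Real.exp (-(3 / (4 * K) * (t - a))) * (|β a| + |χ a|) := by
  have hK0 : 0 < K := by linarith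
  refine NDC_sq _ _ _ _ (4 * K ^ 2 * Real.exp (3 * K + 2)) (Real.exp (-(3 / (2 * K) * (t - a)))) (by positivity) (Real.exp_pos _).le
    (NDC_dec K hK η P k β χ a b h hQ t ht) _ _ (by positivity) (Real.exp_pos _).le ?_ ?_
  · have h1 : (1 : ℝ) ≤ Real.exp (3 * K + 2) := Real.one_le_exp (by linarith)
    have h2 : (1 : ℝ) ≤ K ^ 2 := by nlinarith
    have h3 : 1 ≤ K ^ 2 * Real.exp (3 * K + 2) := by nlinarith
    nlinarith
  · rw [sq, ← Real.exp_add]
    refine Real.exp_le_exp.2 (le_of_eq ?_)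
    field_simp
    ring

theorem NDC_proof : NDC_stmt := by
  intro K hK
  have hK0 : 0 < K := by linarith
  have he1 : (1 : ℝ) ≤ Real.exp (3 * K + 2) := Real.one_le_exp (by linarith)
  have hK2 : (1 : ℝ) ≤ K ^ 2 := by nlinarith
  have hC1 : 1 ≤ 32 * K ^ 2 * Real.exp (3 * K + 2) := by
    have : 1 ≤ K ^ 2 * Real.exp (3 * K + 2) := by nlinarith
    linarith
  refine ⟨32 * K ^ 2 * Real.exp (3 * K + 2), 3 / (4 * K), hC1, by positivity, ?_⟩
  intro η P k β χ a b hab h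
  have hC0 : 0 < 32 * K ^ 2 * Real.exp (3 * K + 2) := by linarith
  refine ⟨?_, ?_, ?_, ?_⟩
  · intro s hs t ht hst
    obtain ⟨h1, h2⟩ := NDC_Q2 K hK η P k β χ a b h s hs t ht hst
    have hm : 0 ≤ min 1 (t - s) := le_min (by norm_num) (by linarith)
    have h3 : (|β s| + |χ s|) ^ 2 ≤ 2 * (β s ^ 2 + χ s ^ 2) := by
      nlinarith [sq_nonneg (|β s| - |χ s|), sq_abs (β s), sq_abs (χ s)]
    have h4 : (|β t| + |χ t|) ^ 2 ≤ 2 * (β t ^ 2 + χ t ^ 2) := by
      nlinarith [sq_nonneg (|β t| - |χ t|), sq_abs (β t), sq_abs (χ t)]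
    have h5 : min 1 (t - s) * ((|β s| + |χ s|) ^ 2 + (|β t| + |χ t|) ^ 2) / (32 * K ^ 2 * Real.exp (3 * K + 2)) ≤
        min 1 (t - s) * (2 * (β s ^ 2 + χ s ^ 2) + 2 * (β t ^ 2 + χ t ^ 2)) / (32 * K ^ 2) := by
      have h6 : 32 * K ^ 2 ≤ 32 * K ^ 2 * Real.exp (3 * K + 2) := by
        nlinarith
      gcongr
    refine h5.trans ?_
    have h7 : min 1 (t - s) * (2 * (β s ^ 2 + χ s ^ 2) + 2 * (β t ^ 2 + χ t ^ 2)) / (32 * K ^ 2) =
        (min 1 (t - s) * (β s ^ 2 + χ s ^ 2) / (8 * K ^ 2) + min 1 (t - s) * (β t ^ 2 + χ t ^ 2) / (8 * K ^ 2)) / 2 := by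
      field_simp
      ring
    rw [h7]
    linarith
  · intro s hs t ht
    obtain ⟨n1, n2⟩ := NDC_N K hK η P k β χ a b h
    have h1 : β t ^ 2 + χ t ^ 2 ≤ 1 * Real.exp (3 * K * |t - s|) * (β s ^ 2 + χ s ^ 2) := by
      rw [one_mul]
      rcases le_total s t with hst | hst
      · rw [abs_of_nonneg (by linarith)]
        exact n1 s hs t ht hst
      · rw [abs_of_nonpos (by linarith), neg_sub]
        exact n2 t ht s hs hst
    refine NDC_sq _ _ _ _ 1 _ (by norm_num) (Real.exp_pos _).le h1 _ _ hC0.le (Real.exp_pos _).le ?_ ?_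
    · have h2 : 2 ≤ 32 * K ^ 2 * Real.exp (3 * K + 2) := by
        have : 1 ≤ K ^ 2 * Real.exp (3 * K + 2) := by nlinarith
        linarith
      nlinarith
    · rw [sq, ← Real.exp_add]
      refine Real.exp_le_exp.2 ?_
      have h3 : 3 * K ≤ 32 * K ^ 2 * Real.exp (3 * K + 2) + 32 * K ^ 2 * Real.exp (3 * K + 2) := by
        have : K ≤ K ^ 2 * Real.exp (3 * K + 2) := by nlinarith
        linarith
      nlinarith [abs_nonneg (t - s)]
  · intro hQ t ht
    exact NDC_pos K hK η P k β χ a b h hQ t ht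
  · intro hQ t ht
    have hr : LSy K (fun x => η (a + b - x)) (fun x => P (a + b - x)) (fun x => k (a + b - x)) (fun x => -β (a + b - x))
        (fun x => χ (a + b - x)) a b := by
      have hmem : ∀ x ∈ Icc a b, a + b - x ∈ Icc a b := fun x hx => ⟨by linarith [hx.2], by linarith [hx.1]⟩
      refine ⟨fun x hx => h.bd _ (hmem x hx), fun x hx => ?_⟩
      obtain ⟨β', χ', d1, d2, h3, h4⟩ := h.d _ (hmem x hx)
      have d0 : HasDerivAt (fun y => a + b - y) (-1) x := by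
        simpa using (hasDerivAt_id x).const_sub (a + b)
      have d3 : HasDerivAt (fun y => -β (a + b - y)) β' x := by
        have := (HasDerivAt.comp x d1 d0).neg
        have h5 : -(β' * -1) = β' := by ring
        rw [h5] at this
        exact this
      have d4 : HasDerivAt (fun y => χ (a + b - y)) (-χ') x := by
        have := HasDerivAt.comp x d2 d0
        have h5 : χ' * -1 = -χ' := by ring
        rw [h5] at this
        exact this
      refine ⟨β', -χ', d3, d4, ?_, ?_⟩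
      · rw [abs_neg]
        exact h3
      · rw [abs_neg]
        have h5 : -χ' - k (a + b - x) * -β (a + b - x) = -(χ' - k (a + b - x) * β (a + b - x)) := by ring
        rw [h5, abs_neg]
        exact h4
    have h1 := NDC_pos K hK _ _ _ _ _ a b hr (by
      have : a + b - b = a := by ring
      rw [this]
      linarith) (a + b - t) ⟨by linarith [ht.2], by linarith [ht.1]⟩
    have h2 : a + b - (a + b - t) = t := by ring
    have h3 : a + b - a = b := by ring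
    have h4 : a + b - t - a = b - t := by ring
    rw [h2, h3, h4, abs_neg, abs_neg] at h1
    exact h1

end Pool.Agent.VNE
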